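import Mathlib

/-!
Sierpinski sets and the covering properties of Menger and Hurewicz.
-/

namespace Pool.Agent.H699Z.Sierp

open Set Filter MeasureTheory

/-- An uncountable set of reals meeting every Lebesgue null set in a countable set. -/
def IsSierpinski (S : Set ℝ) : Prop :=
  ¬ S.Countable ∧ ∀ N : Set ℝ, volume N = 0 → (S ∩ N).Countable

/-- `U` is an open cover of the space `X`. -/
def IsOpenCoverOf (X : Type) [TopologicalSpace X] (U : Set (Set X)) : Prop :=
  (∀ u ∈ U, IsOpen u) ∧ ⋃₀ U = univ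

/-- Menger's property. -/
def IsMenger (X : Type) [TopologicalSpace X] : Prop :=
  ∀ U : ℕ → Set (Set X), (∀ n, IsOpenCoverOf X (U n)) →
    ∃ F : ℕ → Set (Set X), (∀ n, (F n).Finite ∧ F n ⊆ U n) ∧ (⋃ n, ⋃₀ F n) = univ

/-- Hurewicz's property. -/
def IsHurewicz (X : Type) [TopologicalSpace X] : Prop :=
  ∀ U : ℕ → Set (Set X), (∀ n, IsOpenCoverOf X (U n)) →
    ∃ F : ℕ → Set (Set X), (∀ n, (F n).Finite ∧ F n ⊆ U n) ∧
      ∀ x : X, {n : ℕ | x ∉ ⋃₀ F n}.Finite

end Pool.Agent.H699Z.Sierp
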