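import Pool.Agent.H699Z.Sierp.Defs

namespace Pool.Agent.H699Z.Sierp

open Set Filter MeasureTheory Topology
open scoped Pointwise

theorem IsHurewicz.isMenger {X : Type} [TopologicalSpace X] (h : IsHurewicz X) : IsMenger X := by
  intro U hU
  obtain ⟨F, hF, hx⟩ := h U hU
  refine ⟨F, hF, eq_univ_of_forall fun x => ?_⟩
  obtain ⟨n, hn⟩ := (hx x).exists_notMem
  exact mem_iUnion.2 ⟨n, by simpa using hn⟩

/-- the Cantor set is null -/
theorem volume_cantorSet : volume cantorSet = 0 := by
  have h1 : volume cantorSet ≤ 1 := by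
    calc volume cantorSet ≤ volume (Icc (0 : ℝ) 1) := measure_mono cantorSet_subset_unitInterval
      _ = 1 := by rw [Real.volume_Icc]; simp
  have h2 : volume ((· / 3) '' cantorSet) = ENNReal.ofReal (1 / 3) * volume cantorSet := by
    have h3 : (· / 3) '' cantorSet = (3⁻¹ : ℝ) • cantorSet := by
      ext x
      simp only [mem_image, mem_smul_set, smul_eq_mul]
      constructor
      · rintro ⟨y, hy, rfl⟩
        exact ⟨y, hy, by ring⟩
      · rintro ⟨y, hy, rfl⟩
        exact ⟨y, hy, by ring⟩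
    rw [h3, Measure.addHaar_smul]
    simp only [Module.finrank_self, pow_one]
    congr 2
    rw [abs_of_pos (by norm_num)]
    norm_num
  have h4 : volume ((fun x => (2 + x) / 3) '' cantorSet) =
      ENNReal.ofReal (1 / 3) * volume cantorSet := by
    have h3 : (fun x : ℝ => (2 + x) / 3) '' cantorSet =
        (fun x => 2 / 3 + x) '' ((· / 3) '' cantorSet) := by
      rw [image_image]
      apply image_congr
      intro x _
      ring
    rw [h3]
    have h5 : volume ((fun x : ℝ => 2 / 3 + x) '' ((· / 3) '' cantorSet)) =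
        volume ((· / 3) '' cantorSet) := by
      rw [image_add_left, measure_preimage_add]
    rw [h5, h2]
  have h5 : volume cantorSet ≤ ENNReal.ofReal (2 / 3) * volume cantorSet := by
    calc volume cantorSet
        = volume ((· / 3) '' cantorSet ∪ (fun x => (2 + x) / 3) '' cantorSet) := by
          rw [← cantorSet_eq_union_halves]
      _ ≤ volume ((· / 3) '' cantorSet) + volume ((fun x => (2 + x) / 3) '' cantorSet) :=
          measure_union_le _ _
      _ = ENNReal.ofReal (1 / 3) * volume cantorSet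
            + ENNReal.ofReal (1 / 3) * volume cantorSet := by
          rw [h2, h4]
      _ = ENNReal.ofReal (2 / 3) * volume cantorSet := by
          rw [← add_mul, ← ENNReal.ofReal_add (by norm_num) (by norm_num)]
          norm_num
  by_contra h0
  have hfin : volume cantorSet ≠ ⊤ := ne_top_of_le_ne_top (by simp) h1
  have h6 : ENNReal.ofReal (2 / 3) * volume cantorSet < 1 * volume cantorSet := by
    apply ENNReal.mul_lt_mul_left h0 hfin
    rw [ENNReal.ofReal_lt_one]
    norm_num
  rw [one_mul] at h6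
  exact absurd h5 (not_le.2 h6)

/-- Sets of reals meeting each null set in a countable set are Hurewicz. -/
theorem hurewicz_of_null {Y : Set ℝ} (hY : ∀ N : Set ℝ, volume N = 0 → (Y ∩ N).Countable) :
    IsHurewicz Y := by
  classical
  intro U hU
  rcases isEmpty_or_nonempty Y with hE | hne
  · exact ⟨fun _ => ∅, fun n => ⟨finite_empty, empty_subset _⟩, fun x => (hE.false x).elim⟩
  have hcov : ∀ n (y : Y), ∃ u ∈ U n, y ∈ u := by
    intro n y
    have : y ∈ ⋃₀ U n := by rw [(hU n).2]; trivial
    exact this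
  have h1 : ∀ n, ∃ v : ℕ → Set Y, (∀ k, v k ∈ U n) ∧ ∀ y : Y, ∃ k, y ∈ v k := by
    intro n
    obtain ⟨T, hTc, hTU, hT⟩ := TopologicalSpace.isOpen_sUnion_countable (U n) (hU n).1
    have hTne : T.Nonempty := by
      obtain ⟨y⟩ := hne
      have : y ∈ ⋃₀ T := by rw [hT, (hU n).2]; trivial
      obtain ⟨u, hu, _⟩ := this
      exact ⟨u, hu⟩
    obtain ⟨v, hv⟩ := hTc.exists_eq_range hTne
    refine ⟨v, fun k => hTU (by rw [hv]; exact mem_range_self k), fun y => ?_⟩
    have : y ∈ ⋃₀ T := by rw [hT, (hU n).2]; trivial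
    obtain ⟨u, hu, hy⟩ := this
    rw [hv] at hu
    obtain ⟨k, rfl⟩ := hu
    exact ⟨k, hy⟩
  choose v hvU hv using h1
  have h2 : ∀ n k, ∃ w : Set ℝ, IsOpen w ∧ Subtype.val ⁻¹' w = v n k := fun n k =>
    isOpen_induced_iff.1 ((hU n).1 _ (hvU n k))
  choose w hwo hw using h2
  let A : ℕ → ℕ → Set ℝ := fun n k =>
    (Icc (-(n : ℝ)) n ∩ ⋃ j, w n j) \ ⋃ j ∈ Finset.range k, w n j
  have hAm : ∀ n k, MeasurableSet (A n k) := fun n k =>
    (measurableSet_Icc.inter (isOpen_iUnion (hwo n)).measurableSet).diff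
      (isOpen_biUnion (fun j _ => hwo n j)).measurableSet
  have hAanti : ∀ n, Antitone (A n) := by
    intro n k l hkl x hx
    refine ⟨hx.1, fun h => hx.2 ?_⟩
    simp only [mem_iUnion, Finset.mem_range] at h ⊢
    obtain ⟨j, hj, hxj⟩ := h
    exact ⟨j, lt_of_lt_of_le hj hkl, hxj⟩
  have hAe : ∀ n, ⋂ k, A n k = ∅ := by
    intro n
    apply eq_empty_of_forall_notMem
    intro x hx
    rw [mem_iInter] at hx
    obtain ⟨j, hj⟩ := mem_iUnion.1 (hx 0).1.2
    apply (hx (j + 1)).2
    simp only [mem_iUnion, Finset.mem_range]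
    exact ⟨j, Nat.lt_succ_self j, hj⟩
  have h3 : ∀ n, ∃ k, volume (A n k) ≤ (2⁻¹ : ENNReal) ^ n := by
    intro n
    have ht := tendsto_measure_iInter_atTop (μ := volume) (s := A n)
      (fun k => (hAm n k).nullMeasurableSet) (hAanti n)
      ⟨0, ne_top_of_le_ne_top (b := volume (Icc (-(n : ℝ)) n)) (by simp)
        (measure_mono (fun x hx => hx.1.1))⟩
    rw [hAe n, measure_empty] at ht
    have hpos : (0 : ENNReal) < (2⁻¹ : ENNReal) ^ n := ENNReal.pow_pos (by simp) n
    obtain ⟨k, hk⟩ := (ht.eventually (gt_mem_nhds hpos)).exists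
    exact ⟨k, hk.le⟩
  choose k hk using h3
  have hsum : ∑' n, volume (A n (k n)) ≠ ⊤ := by
    apply ne_top_of_le_ne_top _ (ENNReal.tsum_le_tsum hk)
    rw [ENNReal.tsum_geometric]
    simp
  have hae := ae_eventually_notMem hsum
  rw [ae_iff] at hae
  have hc := hY _ hae
  have hc' : (Subtype.val ⁻¹' {a : ℝ | ¬ ∀ᶠ n in atTop, a ∉ A n (k n)} : Set Y).Countable := by
    have := hc.preimage_of_injOn (f := (Subtype.val : Y → ℝ)) Subtype.val_injective.injOn
    exact this.mono (fun y hy => mem_preimage.2 (mem_inter y.2 hy))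
  obtain ⟨z, hz⟩ := (hc'.insert (Classical.arbitrary Y)).exists_eq_range (insert_nonempty _ _)
  choose c hc using hv
  refine ⟨fun n => v n '' ({j | j < k n} ∪ (fun i => c n (z i)) '' {i | i ≤ n}), fun n => ⟨?_, ?_⟩,
    fun y => ?_⟩
  · exact ((finite_lt_nat _).union ((finite_le_nat _).image _)).image _
  · rintro u ⟨j, _, rfl⟩
    exact hvU n j
  · by_cases hy : ∀ᶠ n in atTop, (y : ℝ) ∉ A n (k n)
    · obtain ⟨m, hm⟩ := eventually_atTop.1 hy
      obtain ⟨m', hm'⟩ := exists_nat_ge |(y : ℝ)|
      apply (finite_lt_nat (max m m')).subset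
      intro n hn
      by_contra hlt
      apply hn
      have hge : max m m' ≤ n := le_of_not_gt hlt
      have h4 := hm n (le_trans (le_max_left _ _) hge)
      have h5 : |(y : ℝ)| ≤ n := hm'.trans (by exact_mod_cast le_trans (le_max_right _ _) hge)
      have h6 : (y : ℝ) ∈ ⋃ j ∈ Finset.range (k n), w n j := by
        by_contra h7
        apply h4
        refine ⟨⟨abs_le.1 h5, mem_iUnion.2 ⟨c n y, ?_⟩⟩, h7⟩
        have := hc n y
        rw [← hw] at this
        exact this
      simp only [mem_iUnion, Finset.mem_range] at h6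
      obtain ⟨j, hj, hyj⟩ := h6
      refine ⟨v n j, ⟨j, Or.inl hj, rfl⟩, ?_⟩
      rw [← hw]
      exact hyj
    · have : y ∈ range z := by rw [← hz]; exact Or.inr hy
      obtain ⟨i, rfl⟩ := this
      apply (finite_lt_nat i).subset
      intro n hn
      by_contra hlt
      apply hn
      exact ⟨v n (c n (z i)), ⟨c n (z i), Or.inr ⟨i, (not_lt.1 hlt : i ≤ n), rfl⟩, rfl⟩, hc n (z i)⟩

/-- The Fubini step. -/
theorem step {S : Set ℝ} (hS : IsSierpinski S) {N K Q : Set ℝ} (hNm : MeasurableSet N)
    (hN : volume N = 0) (hK : volume K = 0) (hQ : Q.Countable) {D : ℝ → ℝ} (hD : Measurable D)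
    (hDi : Function.Injective D) (hDK : ∀ t, D t ∈ K) :
    ∃ x ∈ S, ∃ t, D t - x ∉ N ∧ ∀ s ∈ S, s + (D t - x) ∉ Q := by
  have h1 : ∀ᵐ t ∂(volume : Measure ℝ), ∀ᵐ x ∂(volume : Measure ℝ), D t - x ∉ N := by
    refine Eventually.of_forall fun t => ?_
    rw [ae_iff]
    have : {a : ℝ | ¬ D t - a ∉ N} = (fun a => D t - a) ⁻¹' N := by ext a; simp
    rw [this, (Measure.measurePreserving_sub_left volume (D t)).measure_preimage
      hNm.nullMeasurableSet, hN]
  have hm : MeasurableSet {p : ℝ × ℝ | D p.1 - p.2 ∉ N} := by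
    have : Measurable (fun p : ℝ × ℝ => D p.1 - p.2) := (hD.comp measurable_fst).sub measurable_snd
    exact (this hNm).compl
  have h2 := (Measure.ae_ae_comm (μ := (volume : Measure ℝ)) (ν := (volume : Measure ℝ))
    (p := fun t x => D t - x ∉ N) hm).1 h1
  have h3 : ∃ x ∈ S, ∀ᵐ t ∂(volume : Measure ℝ), D t - x ∉ N := by
    by_contra hcon
    push Not at hcon
    rw [ae_iff] at h2
    exact hS.1 ((hS.2 _ h2).mono (fun x hx => mem_inter hx (hcon x hx)))
  obtain ⟨x, hxS, hx⟩ := h3
  have h4 : {t | ∃ s ∈ S, s + (D t - x) ∈ Q}.Countable := by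
    have h5 : ∀ q : ℝ, {t | q + x - D t ∈ S}.Countable := by
      intro q
      have h6 : volume ((fun a => q + x - a) ⁻¹' K) = 0 :=
        (Measure.measurePreserving_sub_left volume (q + x)).quasiMeasurePreserving.preimage_null hK
      have h7 := (hS.2 _ h6).preimage_of_injOn (f := fun t => q + x - D t)
        (fun a _ b _ hab => hDi (by simpa using hab))
      refine h7.mono ?_
      intro t ht
      refine ⟨ht, ?_⟩
      simpa using hDK t
    refine (hQ.biUnion (fun q _ => h5 q)).mono ?_
    rintro t ⟨s, hs, hq⟩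
    simp only [mem_iUnion]
    refine ⟨_, hq, ?_⟩
    have : s + (D t - x) + x - D t = s := by ring
    simp only [mem_ofPred_eq, this, hs]
  have h5 : ∀ᵐ t ∂(volume : Measure ℝ), t ∉ {t | ∃ s ∈ S, s + (D t - x) ∈ Q} :=
    compl_mem_ae_iff.2 (h4.measure_zero volume)
  obtain ⟨t, ht1, ht2⟩ := (hx.and h5).exists
  exact ⟨x, hxS, t, ht1, fun s hs hq => ht2 ⟨s, hs, hq⟩⟩

/-- number of ones among the first `k` digits -/
def cnt (k : ℕ) (s : ℕ → Bool) : ℕ := ((Finset.range k).filter (fun j => s j = true)).card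

theorem continuous_cnt (k : ℕ) : Continuous (cnt k) := by
  have : cnt k = fun s => ∑ j ∈ Finset.range k, (if s j = true then 1 else 0 : ℕ) := by
    funext s
    rw [cnt, Finset.card_filter]
  rw [this]
  apply continuous_finsetSum
  intro j _
  exact (continuous_of_discreteTopology (f := fun b : Bool => (if b = true then 1 else 0 : ℕ))).comp
    (continuous_apply j)

theorem cnt_mono (s : ℕ → Bool) {k l : ℕ} (h : k ≤ l) : cnt k s ≤ cnt l s :=
  Finset.card_le_card (Finset.filter_subset_filter _ (Finset.range_mono h))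

theorem exists_cnt_gt {s : ℕ → Bool} (hs : {j | s j = true}.Infinite) (n : ℕ) :
    ∃ k, n < cnt k s := by
  obtain ⟨T, hT, hc⟩ := hs.exists_subset_card_eq (n + 1)
  refine ⟨T.sup id + 1, ?_⟩
  have : T ⊆ (Finset.range (T.sup id + 1)).filter (fun j => s j = true) := by
    intro j hj
    rw [Finset.mem_filter, Finset.mem_range]
    exact ⟨Nat.lt_succ_of_le (Finset.le_sup (f := id) hj), hT hj⟩
  have := Finset.card_le_card this
  unfold cnt
  omega

open Classical in
/-- spread a sequence along `k` -/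
noncomputable def spread (k : ℕ → ℕ) (t : ℕ → Bool) : ℕ → Bool :=
  fun j => if h : ∃ n, k n = j then t h.choose else false

theorem measurable_spread (k : ℕ → ℕ) : Measurable (spread k) := by
  apply measurable_pi_lambda
  intro j
  unfold spread
  by_cases h : ∃ n, k n = j
  · simp only [dif_pos h]
    exact measurable_pi_apply _
  · simp only [dif_neg h]
    exact measurable_const

theorem spread_apply {k : ℕ → ℕ} (hk : Function.Injective k) (t : ℕ → Bool) (n : ℕ) :
    spread k t (k n) = t n := by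
  have h : ∃ m, k m = k n := ⟨n, rfl⟩
  unfold spread
  rw [dif_pos h, hk h.choose_spec]

theorem spread_injective {k : ℕ → ℕ} (hk : Function.Injective k) :
    Function.Injective (spread k) := by
  intro a b hab
  funext n
  rw [← spread_apply hk a n, ← spread_apply hk b n, hab]

theorem cnt_spread {k : ℕ → ℕ} (hk : StrictMono k) (t : ℕ → Bool) (n : ℕ) :
    cnt (k n) (spread k t) ≤ n := by
  have : (Finset.range (k n)).filter (fun j => spread k t j = true) ⊆ (Finset.range n).image k := by
    intro j hj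
    rw [Finset.mem_filter, Finset.mem_range] at hj
    by_cases h : ∃ m, k m = j
    · obtain ⟨m, rfl⟩ := h
      exact Finset.mem_image.2 ⟨m, Finset.mem_range.2 (hk.lt_iff_lt.1 hj.1), rfl⟩
    · have h2 := hj.2
      unfold spread at h2
      rw [dif_neg h] at h2
      exact absurd h2 (by simp)
  have h1 := Finset.card_le_card this
  have h2 : ((Finset.range n).image k).card ≤ n := by
    simpa using Finset.card_image_le (s := Finset.range n) (f := k)
  unfold cnt
  omega

theorem countable_fin : {s : ℕ → Bool | {j | s j = true}.Finite}.Countable := by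
  have h1 : {T : Set ℕ | T.Finite ∧ T ⊆ univ}.Countable :=
    countable_ofPred_finite_subset countable_univ
  have h2 := h1.preimage_of_injOn (f := fun s : ℕ → Bool => {j | s j = true}) (by
    intro a _ b _ hab
    funext j
    have : (a j = true) ↔ (b j = true) := by
      have := Set.ext_iff.1 hab j
      simpa using this
    exact Bool.eq_iff_iff.2 this)
  refine h2.mono ?_
  intro s hs
  exact ⟨hs, subset_univ _⟩

theorem exists_enum (hCH : Cardinal.continuum.{0} = Cardinal.aleph 1) :
    ∃ (W : Type) (_ : LinearOrder W) (N : W → Set ℝ) (k : W → ℕ → ℕ),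
      (∀ a : W, (Iic a).Countable) ∧ (∀ a, MeasurableSet (N a) ∧ volume (N a) = 0) ∧
      (∀ M : Set ℝ, MeasurableSet M → volume M = 0 → ∃ a, N a = M) ∧
      ∀ f : ℕ → ℕ, ∃ a, k a = f := by
  let T := {M : Set ℝ // MeasurableSet M ∧ volume M = 0} × (ℕ → ℕ)
  have h1 : Cardinal.mk {M : Set ℝ | MeasurableSet M} ≤ Cardinal.continuum := by
    have h2 : (inferInstance : MeasurableSpace ℝ) =
        MeasurableSpace.generateFrom (TopologicalSpace.countableBasis ℝ) := by
      rw [BorelSpace.measurable_eq (α := ℝ)]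
      exact (TopologicalSpace.isBasis_countableBasis ℝ).borel_eq_generateFrom
    have h3 := MeasurableSpace.cardinal_measurableSet_le_continuum
      (s := TopologicalSpace.countableBasis ℝ)
      ((TopologicalSpace.countable_countableBasis ℝ).le_aleph0.trans Cardinal.aleph0_le_continuum)
    rw [← h2] at h3
    exact h3
  have h2 : Cardinal.mk T ≤ Cardinal.continuum := by
    have h3 : Cardinal.mk {M : Set ℝ // MeasurableSet M ∧ volume M = 0} ≤ Cardinal.continuum :=
      le_trans (Cardinal.mk_subtype_mono (fun M hM => hM.1)) h1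
    have h4 : Cardinal.mk (ℕ → ℕ) = Cardinal.continuum := by simp
    simp only [T, Cardinal.mk_prod, Cardinal.lift_id, h4]
    calc _ ≤ Cardinal.continuum * Cardinal.continuum := by gcongr
      _ = Cardinal.continuum := Cardinal.continuum_mul_self
  let W := (Cardinal.aleph 1 : Cardinal.{0}).ord.ToType
  have hW : Cardinal.mk W = Cardinal.aleph 1 := Cardinal.mk_ord_toType _
  have hTne : Nonempty T := ⟨⟨⟨∅, MeasurableSet.empty, measure_empty⟩, fun _ => 0⟩⟩
  obtain ⟨e⟩ : Nonempty (T ↪ W) := by
    rw [← Cardinal.le_def, hW, ← hCH]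
    exact h2
  let g : W → T := Function.invFun e
  have hg : Function.Surjective g := Function.invFun_surjective e.injective
  refine ⟨W, inferInstance, fun a => (g a).1.1, fun a => (g a).2, ?_, fun a => (g a).1.2, ?_, ?_⟩
  · intro a
    have h3 : Cardinal.mk (Iio a) < Cardinal.aleph 1 := by
      have := Cardinal.mk_Iio_lt a (by simp [W])
      rwa [hW] at this
    have h4 : (Iio a).Countable := (Cardinal.countable_iff_lt_aleph_one _).2 h3
    rw [← Iio_insert]
    exact h4.insert a
  · intro M hM hM0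
    obtain ⟨a, ha⟩ := hg (⟨M, hM, hM0⟩, fun _ => 0)
    exact ⟨a, by simp only [ha]⟩
  · intro f
    obtain ⟨a, ha⟩ := hg (⟨∅, MeasurableSet.empty, measure_empty⟩, f)
    exact ⟨a, by simp only [ha]⟩

theorem main (hCH : Cardinal.continuum.{0} = Cardinal.aleph 1) {S : Set ℝ}
    (hS : IsSierpinski S) : ∃ Y : Set ℝ, IsSierpinski Y ∧ ¬ IsMenger (S × Y) := by
  classical
  obtain ⟨W, _, N, k, hW, hN, hNs, hks⟩ := exists_enum hCH
  let e : (ℕ → Bool) → ℝ := fun s => (cantorSetHomeomorphNatToBool.symm s : ℝ)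
  have he : Continuous e :=
    continuous_subtype_val.comp cantorSetHomeomorphNatToBool.symm.continuous
  have hei : Function.Injective e :=
    Subtype.val_injective.comp cantorSetHomeomorphNatToBool.symm.injective
  have heK : ∀ s, e s ∈ cantorSet := fun s => (cantorSetHomeomorphNatToBool.symm s).2
  let g : ℝ ≃ᵐ (ℕ → Bool) := PolishSpace.measurableEquivNatBoolOfNotCountable not_countable
  let Q : Set ℝ := e '' {s : ℕ → Bool | {j | s j = true}.Finite}
  have hQ : Q.Countable := countable_fin.image e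
  let k' : W → ℕ → ℕ := fun a n => ∑ i ∈ Finset.range (n + 1), (k a i + 1)
  have hk' : ∀ a, StrictMono (k' a) := fun a => strictMono_nat_of_lt_succ (fun n => by
    simp only [k']
    rw [Finset.sum_range_succ _ (n + 1)]
    omega)
  have hkk' : ∀ a n, k a n ≤ k' a n := fun a n => by
    simp only [k']
    rw [Finset.sum_range_succ]
    omega
  have key : ∀ a : W, ∃ x ∈ S, ∃ t, e (spread (k' a) (g t)) - x ∉ (⋃ b ∈ Iic a, N b) ∧
      ∀ s ∈ S, s + (e (spread (k' a) (g t)) - x) ∉ Q := by
    intro a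
    apply step hS (K := cantorSet) (D := fun t => e (spread (k' a) (g t)))
    · exact MeasurableSet.biUnion (hW a) (fun b _ => (hN b).1)
    · exact (measure_biUnion_null_iff (hW a)).2 (fun b _ => (hN b).2)
    · exact volume_cantorSet
    · exact hQ
    · exact he.measurable.comp ((measurable_spread _).comp g.measurable)
    · exact hei.comp ((spread_injective (hk' a).injective).comp g.injective)
    · exact fun t => heK _
  choose x hxS t hyN hyQ using key
  let y : W → ℝ := fun a => e (spread (k' a) (g (t a))) - x a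
  have hY : ∀ M : Set ℝ, volume M = 0 → (range y ∩ M).Countable := by
    intro M hM
    obtain ⟨M', hMM', hM'm, hM'⟩ := exists_measurable_superset_of_null hM
    obtain ⟨b, rfl⟩ := hNs M' hM'm hM'
    refine ((hW b).image y).mono ?_
    rintro _ ⟨⟨a, rfl⟩, ha⟩
    refine ⟨a, ?_, rfl⟩
    by_contra hab
    apply hyN a
    simp only [mem_iUnion]
    exact ⟨b, le_of_lt (lt_of_not_ge hab), hMM' ha⟩
  refine ⟨range y, ⟨fun hc => ?_, hY⟩, fun hM => ?_⟩
  · obtain ⟨b, hb⟩ := hNs (range y) hc.measurableSet (hc.measure_zero volume)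
    apply hyN b
    simp only [mem_iUnion]
    exact ⟨b, le_refl b, by rw [hb]; exact mem_range_self b⟩
  · let V : ℕ → ℕ → Set (S × range y) := fun n j =>
      {p | (p.1 : ℝ) + (p.2 : ℝ) ∉ e '' {s | cnt j s ≤ n}}
    have hVo : ∀ n j, IsOpen (V n j) := by
      intro n j
      have h1 : IsClosed {s : ℕ → Bool | cnt j s ≤ n} :=
        (isClosed_discrete {m : ℕ | m ≤ n}).preimage (continuous_cnt j)
      have h2 : IsClosed (e '' {s | cnt j s ≤ n}) := (h1.isCompact.image he).isClosed
      have h3 : Continuous (fun p : S × range y => (p.1 : ℝ) + (p.2 : ℝ)) := by fun_prop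
      exact h2.isOpen_compl.preimage h3
    have hVm : ∀ n j l, j ≤ l → V n j ⊆ V n l := by
      rintro n j l hjl p hp ⟨s, hs, hse⟩
      exact hp ⟨s, le_trans (cnt_mono s hjl) hs, hse⟩
    obtain ⟨F, hF, hcov⟩ := hM (fun n => range (V n)) (fun n => ⟨by
      rintro u ⟨j, rfl⟩
      exact hVo n j, by
      apply eq_univ_of_forall
      rintro ⟨⟨s, hs⟩, ⟨_, a, rfl⟩⟩
      by_cases h : ∃ r, e r = s + y a
      · obtain ⟨r, hr⟩ := h
        have h1 : {j | r j = true}.Infinite := fun hfin => hyQ a s hs ⟨r, hfin, hr⟩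
        obtain ⟨j, hj⟩ := exists_cnt_gt h1 n
        refine ⟨V n j, ⟨j, rfl⟩, ?_⟩
        rintro ⟨r', hr', hr'e⟩
        have : r' = r := hei (hr'e.trans hr.symm)
        rw [this] at hr'
        exact absurd hr' (not_le.2 hj)
      · exact ⟨V n 0, ⟨0, rfl⟩, fun ⟨r, _, hr⟩ => h ⟨r, hr⟩⟩⟩)
    have h1 : ∀ n, ∃ j, ⋃₀ F n ⊆ V n j := by
      intro n
      obtain ⟨J, _, hJ, hJF⟩ := (Set.Finite.exists_subset_finite_image_eq (f := V n)
        (s := univ) (hF n).1 (by rw [image_univ]; exact (hF n).2))
      obtain ⟨j, hj⟩ := hJ.bddAbove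
      refine ⟨j, ?_⟩
      rintro p ⟨u, hu, hp⟩
      rw [← hJF] at hu
      obtain ⟨i, hi, rfl⟩ := hu
      exact hVm n i j (hj hi) hp
    choose f hf using h1
    obtain ⟨a, ha⟩ := hks f
    have h2 : ((⟨x a, hxS a⟩, ⟨y a, mem_range_self a⟩) : S × range y) ∈ ⋃ n, ⋃₀ F n := by
      rw [hcov]; trivial
    obtain ⟨n, hn⟩ := mem_iUnion.1 h2
    apply hVm n (f n) (k' a n) (by rw [← ha]; exact hkk' a n) (hf n hn)
    refine ⟨spread (k' a) (g (t a)), cnt_spread (hk' a) _ n, ?_⟩
    simp only [y]
    ring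

end Pool.Agent.H699Z.Sierp
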